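import Mathlib

/-!
MP_a37b83_nt, Q1: every realizing set for a prime power, and for a product of two distinct odd
primes, contains a unit; a lower bound for the number of elements of a realizing set which are not
divisible by a given divisor of the modulus.
-/

namespace Pool.Agent.Results.MP_a37b83_nt.UnitForced

/-- No nonempty subset of `S` has sum zero. -/
def ZeroSumFree (m : ℕ) (S : Finset (ZMod m)) : Prop :=
  ∀ T ⊆ S, T.Nonempty → ∑ x ∈ T, x ≠ 0

/-- `k m` is the largest size of a zero-sum-free set of residues modulo `m`. -/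
noncomputable def k (m : ℕ) : ℕ := sSup {n | ∃ S : Finset (ZMod m), ZeroSumFree m S ∧ S.card = n}

/-- The realizing sets for `m`. -/
def Realizing (m : ℕ) (S : Finset (ZMod m)) : Prop := ZeroSumFree m S ∧ S.card = k m

theorem card_le_k {m : ℕ} (hm : 2 ≤ m) {S : Finset (ZMod m)} (hS : ZeroSumFree m S) :
    S.card ≤ k m := by
  have : NeZero m := ⟨by omega⟩
  apply le_csSup
  · refine ⟨Fintype.card (ZMod m), ?_⟩
    rintro n ⟨T, -, rfl⟩
    exact Finset.card_le_univ T
  · exact ⟨S, hS, rfl⟩

/-- The exchange lemma. -/
theorem exchange {m d : ℕ} (hm : 2 ≤ m) (hd : d ∣ m) {S : Finset (ZMod m)} (hS : Realizing m S)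
    (R : Finset (ZMod m)) (hR : ∀ r ∈ R, ¬ d ∣ r.val) (hsum : ∑ r ∈ R, r.val % d < d) :
    R.card ≤ (S.filter (fun s => ¬ d ∣ s.val)).card := by
  classical
  have : NeZero m := ⟨by omega⟩
  set A := S.filter (fun s => d ∣ s.val) with hA
  have hdisj : Disjoint A R := by
    rw [Finset.disjoint_left]
    intro x hx hxR
    exact hR x hxR (Finset.mem_filter.mp hx).2
  have hz : ZeroSumFree m (A ∪ R) := by
    intro T hT hne h0
    have hval : ∀ s : ZMod m, (ZMod.castHom hd (ZMod d)) s = ((s.val % d : ℕ) : ZMod d) := by
      intro s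
      rw [ZMod.natCast_mod]
      conv_lhs => rw [← ZMod.natCast_zmod_val s]
      simp
    have h1 : ∑ x ∈ T, (ZMod.castHom hd (ZMod d)) x = 0 := by
      rw [← map_sum, h0, map_zero]
    have h2 : ((∑ x ∈ T, x.val % d : ℕ) : ZMod d) = 0 := by
      rw [Nat.cast_sum, ← h1]
      exact Finset.sum_congr rfl fun x _ => (hval x).symm
    have h3 : ∑ x ∈ T, x.val % d = ∑ x ∈ T.filter (fun x => x ∈ R), x.val % d := by
      rw [Finset.sum_filter]
      apply Finset.sum_congr rfl
      intro x hx
      split_ifs with hxR
      · rfl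
      · rcases Finset.mem_union.mp (hT hx) with h | h
        · exact Nat.mod_eq_zero_of_dvd (Finset.mem_filter.mp h).2
        · exact absurd h hxR
    have h4 : ∑ x ∈ T.filter (fun x => x ∈ R), x.val % d ≤ ∑ r ∈ R, r.val % d := by
      apply Finset.sum_le_sum_of_subset
      intro x hx
      exact (Finset.mem_filter.mp hx).2
    have h5 : ∑ x ∈ T, x.val % d = 0 := by
      have h6 : d ∣ ∑ x ∈ T, x.val % d := (ZMod.natCast_eq_zero_iff _ _).mp h2
      exact Nat.eq_zero_of_dvd_of_lt h6 (by omega)
    have h7 : T ⊆ S := by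
      intro x hx
      rcases Finset.mem_union.mp (hT hx) with h | h
      · exact (Finset.mem_filter.mp h).1
      · exfalso
        have h8 := (Finset.sum_eq_zero_iff.mp h5) x hx
        exact hR x h (Nat.dvd_of_mod_eq_zero h8)
    exact hS.1 T h7 hne h0
  have h1 : A.card + R.card ≤ S.card := by
    rw [← Finset.card_union_of_disjoint hdisj, hS.2]
    exact card_le_k hm hz
  have h2 : A.card + (S.filter (fun s => ¬ d ∣ s.val)).card = S.card := by
    rw [hA]
    exact Finset.card_filter_add_card_filter_not _
  omega

theorem unit_of_coprime {m : ℕ} (hm : 2 ≤ m) {s : ZMod m} (h : Nat.Coprime s.val m) : IsUnit s := by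
  have : NeZero m := ⟨by omega⟩
  rw [← ZMod.natCast_zmod_val s]
  exact (ZMod.isUnit_iff_coprime _ _).mpr h

/-- Prime powers. -/
theorem prime_power {m : ℕ} (hm : IsPrimePow m) {S : Finset (ZMod m)} (hS : Realizing m S) :
    ∃ s ∈ S, IsUnit s := by
  classical
  have hm2 : 2 ≤ m := hm.two_le
  obtain ⟨p, a, hp, ha, rfl⟩ := (isPrimePow_nat_iff _).mp hm
  have : Fact (1 < p ^ a) := ⟨by omega⟩
  have h1 : (1 : ZMod (p ^ a)).val = 1 := ZMod.val_one _
  have hp1 : ¬ p ∣ 1 := hp.one_lt.ne' ∘ Nat.dvd_one.mp
  have h := exchange hm2 (dvd_pow_self p ha.ne') hS {1}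
    (by intro r hr; rw [Finset.mem_singleton.mp hr, h1]; exact hp1)
    (by rw [Finset.sum_singleton, h1, Nat.mod_eq_of_lt hp.one_lt]; exact hp.one_lt)
  rw [Finset.card_singleton] at h
  obtain ⟨s, hs⟩ := Finset.card_pos.mp (by omega : 0 < (S.filter (fun s => ¬ p ∣ s.val)).card)
  obtain ⟨hs1, hs2⟩ := Finset.mem_filter.mp hs
  refine ⟨s, hs1, unit_of_coprime hm2 ?_⟩
  exact (Nat.Coprime.pow_left a ((Nat.Prime.coprime_iff_not_dvd hp).mpr hs2)).symm

/-- Products of two distinct odd primes. -/
theorem two_primes {p q : ℕ} (hp : p.Prime) (hq : q.Prime) (hp3 : 3 ≤ p) (hpq : p < q)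
    {S : Finset (ZMod (p * q))} (hS : Realizing (p * q) S) : ∃ s ∈ S, IsUnit s := by
  classical
  have hm2 : 2 ≤ p * q := by nlinarith
  have : NeZero (p * q) := ⟨by omega⟩
  by_contra hno
  push Not at hno
  set D := S.filter (fun s => ¬ p ∣ s.val) with hD
  set R := (Finset.range (p - 1)).image (fun i => ((1 + p * i : ℕ) : ZMod (p * q))) with hRdef
  have hlt : ∀ i ∈ Finset.range (p - 1), 1 + p * i < p * q := by
    intro i hi
    have := Finset.mem_range.mp hi
    have h1 : i + 2 ≤ q := by omega
    nlinarith
  have hval : ∀ i ∈ Finset.range (p - 1), (((1 + p * i : ℕ) : ZMod (p * q))).val = 1 + p * i := by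
    intro i hi
    exact ZMod.val_cast_of_lt (hlt i hi)
  have hinj : Set.InjOn (fun i => ((1 + p * i : ℕ) : ZMod (p * q)))
      (Finset.range (p - 1) : Set ℕ) := by
    intro i hi j hj hij
    have h1 := hval i hi
    have h2 := hval j hj
    simp only at hij
    rw [hij, h2] at h1
    have h3 : p * j = p * i := by omega
    exact (Nat.eq_of_mul_eq_mul_left hp.pos h3).symm
  have hRcard : R.card = p - 1 := by
    rw [hRdef, Finset.card_image_of_injOn hinj, Finset.card_range]
  have hmod : ∀ i, (1 + p * i) % p = 1 := by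
    intro i
    rw [Nat.add_mul_mod_self_left]
    exact Nat.mod_eq_of_lt hp.one_lt
  have h := exchange hm2 (Dvd.intro q rfl) hS R
    (by
      intro r hr hdvd
      obtain ⟨i, hi, rfl⟩ := Finset.mem_image.mp hr
      rw [hval i hi] at hdvd
      have := Nat.mod_eq_zero_of_dvd hdvd
      rw [hmod] at this
      omega)
    (by
      rw [hRdef, Finset.sum_image (fun i hi j hj hij => hinj hi hj hij)]
      have : ∑ i ∈ Finset.range (p - 1), (((1 + p * i : ℕ) : ZMod (p * q))).val % p
          = ∑ i ∈ Finset.range (p - 1), 1 := by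
        apply Finset.sum_congr rfl
        intro i hi
        rw [hval i hi, hmod]
      rw [this]
      simp only [Finset.sum_const, Finset.card_range, smul_eq_mul, mul_one]
      omega)
  rw [hRcard, ← hD] at h
  set Q := (Finset.Ico 1 p).image (fun j => ((q * j : ℕ) : ZMod (p * q))) with hQ
  have hDQ : D ⊆ Q := by
    intro s hs
    obtain ⟨hs1, hs2⟩ := Finset.mem_filter.mp hs
    have h1 : ¬ Nat.Coprime s.val (p * q) := fun hc => hno s hs1 (unit_of_coprime hm2 hc)
    have h2 : q ∣ s.val := by
      by_contra h3
      apply h1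
      exact Nat.Coprime.mul_right ((Nat.Prime.coprime_iff_not_dvd hp).mpr hs2).symm
        ((Nat.Prime.coprime_iff_not_dvd hq).mpr h3).symm
    obtain ⟨j, hj⟩ := h2
    have h4 : s.val < p * q := ZMod.val_lt s
    rw [hQ, Finset.mem_image]
    refine ⟨j, ?_, ?_⟩
    · rw [Finset.mem_Ico]
      constructor
      · rcases Nat.eq_zero_or_pos j with h0 | h0
        · exfalso
          apply hs2
          rw [hj, h0, mul_zero]
          exact dvd_zero _
        · exact h0
      · by_contra h5
        push Not at h5
        have : q * p ≤ q * j := Nat.mul_le_mul_left q h5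
        rw [← hj] at this
        nlinarith
    · rw [← hj]
      exact ZMod.natCast_zmod_val s
  have hQcard : Q.card ≤ p - 1 := by
    refine Finset.card_image_le.trans ?_
    rw [Nat.card_Ico]
  have hDQ' : D = Q := Finset.eq_of_subset_of_card_le hDQ (by omega)
  have hDS : D ⊆ S := Finset.filter_subset _ _
  have hmem : ∀ j, 1 ≤ j → j < p → ((q * j : ℕ) : ZMod (p * q)) ∈ S := by
    intro j h1 h2
    apply hDS
    rw [hDQ', hQ]
    exact Finset.mem_image.mpr ⟨j, Finset.mem_Ico.mpr ⟨h1, h2⟩, rfl⟩
  have ha := hmem 1 (le_refl 1) (by omega)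
  have hb := hmem (p - 1) (by omega) (by omega)
  have hne : ((q * 1 : ℕ) : ZMod (p * q)) ≠ ((q * (p - 1) : ℕ) : ZMod (p * q)) := by
    intro he
    have h1 : (((q * 1 : ℕ) : ZMod (p * q))).val = q * 1 := by
      apply ZMod.val_cast_of_lt
      nlinarith [hq.pos]
    have h2 : (((q * (p - 1) : ℕ) : ZMod (p * q))).val = q * (p - 1) := by
      apply ZMod.val_cast_of_lt
      rw [mul_comm p q]
      exact Nat.mul_lt_mul_of_pos_left (by omega) hq.pos
    rw [he, h2] at h1
    have := Nat.eq_of_mul_eq_mul_left hq.pos h1
    omega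
  refine hS.1 {((q * 1 : ℕ) : ZMod (p * q)), ((q * (p - 1) : ℕ) : ZMod (p * q))} ?_ ?_ ?_
  · intro x hx
    rcases Finset.mem_insert.mp hx with h1 | h1
    · rw [h1]; exact ha
    · rw [Finset.mem_singleton.mp h1]; exact hb
  · exact ⟨_, Finset.mem_insert_self _ _⟩
  · rw [Finset.sum_pair hne, ← Nat.cast_add, ZMod.natCast_eq_zero_iff]
    refine ⟨1, ?_⟩
    have h1 : q * 1 + q * (p - 1) = q * (1 + (p - 1)) := by ring
    rw [h1, Nat.add_sub_cancel' (by omega : 1 ≤ p)]
    ring

/-- Cyclic rotation by `a` of the bit set `X` of residues modulo `m`. -/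
def rot (m X a : ℕ) : ℕ := ((X <<< a) ||| (X >>> (m - a))) &&& (2 ^ m - 1)

/-- Evaluate the argument first. -/
def force (X : ℕ) (g : ℕ → Bool) : Bool :=
  match X with
  | 0 => g 0
  | Y + 1 => g (Y + 1)

theorem force_eq (X : ℕ) (g : ℕ → Bool) : force X g = g X := by
  cases X <;> rfl

/-- The search for `n` further residues `a` with `P a` and `m - f ≤ a < m`; `X` is a set of subset
sums. -/
def search (m : ℕ) (P : ℕ → Bool) : ℕ → ℕ → ℕ → Bool
  | 0, _, n => Nat.beq n 0
  | f + 1, X, n =>
    Nat.beq n 0 || (Nat.ble n (f + 1) &&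
      ((P (m - (f + 1)) && (!(Nat.testBit X (f + 1)) &&
        force (X ||| rot m X (m - (f + 1))) (fun Y => search m P f Y (n - 1)))) ||
        search m P f X n))

theorem search_sound {m : ℕ} (hm : 2 ≤ m) (P : ℕ → Bool) : ∀ f, f < m → ∀ (X n : ℕ) (C D : Finset (ZMod m)),
    Disjoint C D → ZeroSumFree m (C ∪ D) →
    (∀ j, X.testBit j = true → j < m ∧ ∃ W ⊆ C, ∑ x ∈ W, x = (j : ZMod m)) →
    (∀ d ∈ D, m ≤ d.val + f) → (∀ d ∈ D, P d.val = true) → n ≤ D.card →
    search m P f X n = true := by
  classical
  have : NeZero m := ⟨by omega⟩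
  intro f
  induction f with
  | zero =>
    intro _ X n C D _ _ _ hD _ hn
    have hD0 : D = ∅ := by
      rw [Finset.eq_empty_iff_forall_notMem]
      intro d hd
      have h1 := hD d hd
      have h2 := ZMod.val_lt d
      omega
    rw [hD0, Finset.card_empty] at hn
    have hn0 : n = 0 := by omega
    subst hn0
    rfl
  | succ f ih =>
    intro hf X n C D hdis hz hX hD hP hn
    rcases Nat.eq_zero_or_pos n with h0 | hpos
    · subst h0
      simp [search]
    have hcard : D.card ≤ f + 1 := by
      have h1 : (D.image ZMod.val).card = D.card :=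
        Finset.card_image_of_injective _ (ZMod.val_injective m)
      have h2 : D.image ZMod.val ⊆ Finset.Ico (m - (f + 1)) m := by
        intro x hx
        obtain ⟨d, hd, rfl⟩ := Finset.mem_image.mp hx
        have h3 := hD d hd
        have h4 := ZMod.val_lt d
        rw [Finset.mem_Ico]
        omega
      have h3 := Finset.card_le_card h2
      rw [h1, Nat.card_Ico] at h3
      omega
    have hble : Nat.ble n (f + 1) = true := Nat.ble_eq.mpr (by omega)
    set a := m - (f + 1) with ha
    have haf : a + (f + 1) = m := by omega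
    have hcast : (a : ZMod m) + ((f + 1 : ℕ) : ZMod m) = 0 := by
      rw [← Nat.cast_add, haf, ZMod.natCast_self]
    have haval : (a : ZMod m).val = a := ZMod.val_cast_of_lt (by omega)
    by_cases haD : (a : ZMod m) ∈ D
    · have haC : (a : ZMod m) ∉ C := fun h => (Finset.disjoint_left.mp hdis h) haD
      have htb : Nat.testBit X (f + 1) = false := by
        by_contra hne
        have htrue : Nat.testBit X (f + 1) = true := by simpa using hne
        obtain ⟨_, W, hW, hs⟩ := hX _ htrue
        have haW : (a : ZMod m) ∉ W := fun h => haC (hW h)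
        refine hz (insert (a : ZMod m) W) ?_ ⟨_, Finset.mem_insert_self _ _⟩ ?_
        · intro x hx
          rcases Finset.mem_insert.mp hx with h | h
          · rw [h]; exact Finset.mem_union_right _ haD
          · exact Finset.mem_union_left _ (hW h)
        · rw [Finset.sum_insert haW, hs]
          exact hcast
      have hPa : P a = true := by
        rw [← haval]
        exact hP _ haD
      have hrec : search m P f (X ||| rot m X a) (n - 1) = true := by
        apply ih (by omega) _ _ (insert (a : ZMod m) C) (D.erase (a : ZMod m))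
        · rw [Finset.disjoint_left]
          intro x hx hx'
          rcases Finset.mem_insert.mp hx with h | h
          · exact (Finset.ne_of_mem_erase hx') h
          · exact (Finset.disjoint_left.mp hdis h) (Finset.mem_of_mem_erase hx')
        · have : insert (a : ZMod m) C ∪ D.erase (a : ZMod m) = C ∪ D := by
            ext x
            simp only [Finset.mem_union, Finset.mem_insert, Finset.mem_erase]
            constructor
            · rintro ((h | h) | h)
              · right; rw [h]; exact haD
              · left; exact h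
              · right; exact h.2
            · rintro (h | h)
              · left; right; exact h
              · by_cases hxa : x = (a : ZMod m)
                · left; left; exact hxa
                · right; exact ⟨hxa, h⟩
          rw [this]
          exact hz
        · intro j hj
          rw [Nat.testBit_or, Bool.or_eq_true] at hj
          rcases hj with hj | hj
          · obtain ⟨h1, W, hW, hs⟩ := hX j hj
            exact ⟨h1, W, hW.trans (Finset.subset_insert _ _), hs⟩
          · rw [rot, Nat.testBit_and, Bool.and_eq_true, Nat.testBit_or, Bool.or_eq_true,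
              Nat.testBit_shiftLeft, Nat.testBit_shiftRight, Nat.testBit_two_pow_sub_one] at hj
            obtain ⟨hj1, hj2⟩ := hj
            have hjm : j < m := by simpa using hj2
            refine ⟨hjm, ?_⟩
            rcases hj1 with hj1 | hj1
            · rw [Bool.and_eq_true] at hj1
              have hja : a ≤ j := by simpa using hj1.1
              obtain ⟨h1, W, hW, hs⟩ := hX _ hj1.2
              have haW : (a : ZMod m) ∉ W := fun h => haC (hW h)
              refine ⟨insert (a : ZMod m) W, Finset.insert_subset_insert _ hW, ?_⟩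
              rw [Finset.sum_insert haW, hs, ← Nat.cast_add]
              congr 1
              omega
            · obtain ⟨h1, W, hW, hs⟩ := hX _ hj1
              have haW : (a : ZMod m) ∉ W := fun h => haC (hW h)
              refine ⟨insert (a : ZMod m) W, Finset.insert_subset_insert _ hW, ?_⟩
              rw [Finset.sum_insert haW, hs, ← Nat.cast_add]
              have h2 : a + (m - a + j) = m + j := by omega
              rw [h2, Nat.cast_add, ZMod.natCast_self, zero_add]
        · intro d hd
          have h1 := hD d (Finset.mem_of_mem_erase hd)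
          have h2 : d ≠ (a : ZMod m) := Finset.ne_of_mem_erase hd
          by_contra h3
          apply h2
          apply ZMod.val_injective m
          rw [haval]
          omega
        · intro d hd
          exact hP d (Finset.mem_of_mem_erase hd)
        · rw [Finset.card_erase_of_mem haD]
          omega
      rw [search, force_eq, ← ha, hble, htb, hPa, hrec]
      simp
    · have hrec : search m P f X n = true := by
        apply ih (by omega) X n C D hdis hz hX _ hP hn
        intro d hd
        have h1 := hD d hd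
        by_contra h3
        apply haD
        have : d = (a : ZMod m) := by
          apply ZMod.val_injective m
          rw [haval]
          omega
        rw [← this]
        exact hd
      rw [search, hble, hrec]
      simp

theorem card_le_of_search {m n : ℕ} (hm : 2 ≤ m) {P : ℕ → Bool}
    (h : search m P (m - 1) 1 (n + 1) = false) {S : Finset (ZMod m)} (hS : ZeroSumFree m S)
    (hP : ∀ s ∈ S, P s.val = true) : S.card ≤ n := by
  classical
  have : NeZero m := ⟨by omega⟩
  by_contra hc
  have h1 : search m P (m - 1) 1 (n + 1) = true := by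
    apply search_sound hm P (m - 1) (by omega) 1 (n + 1) ∅ S (Finset.disjoint_empty_left _)
    · rw [Finset.empty_union]; exact hS
    · intro j hj
      have hj0 : j = 0 := by
        by_contra hne
        have : Nat.testBit 1 j = false := by
          cases j with
          | zero => exact absurd rfl hne
          | succ i => simp [Nat.testBit_succ]
        rw [this] at hj
        exact absurd hj (by decide)
      subst hj0
      exact ⟨by omega, ∅, Finset.empty_subset _, by simp⟩
    · intro d hd
      have h2 : d.val ≠ 0 := by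
        intro h3
        have h4 : d = 0 := (ZMod.val_eq_zero d).mp h3
        refine hS {d} ?_ (Finset.singleton_nonempty d) ?_
        · rw [Finset.singleton_subset_iff]; exact hd
        · rw [Finset.sum_singleton, h4]
      omega
    · exact hP
    · omega
  rw [h] at h1
  exact absurd h1 (by decide)

theorem k_eq {m n : ℕ} (hm : 2 ≤ m) (h : search m (fun _ => true) (m - 1) 1 (n + 1) = false)
    {S : Finset (ZMod m)} (hS : ZeroSumFree m S) (hc : S.card = n) : k m = n := by
  apply le_antisymm
  · have hne : {n | ∃ S : Finset (ZMod m), ZeroSumFree m S ∧ S.card = n}.Nonempty := ⟨n, S, hS, hc⟩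
    apply csSup_le hne
    rintro t ⟨T, hT, rfl⟩
    exact card_le_of_search hm h hT (fun _ _ => rfl)
  · rw [← hc]
    exact card_le_k hm hS

/-- `b m = ⌊(-1 + √(8 m + 9)) / 2⌋`. -/
noncomputable def b (m : ℕ) : ℕ := ⌊(-1 + Real.sqrt (8 * m + 9)) / 2⌋₊

/-- The set `E`. -/
def E : Set ℕ := {m | 5 ≤ m ∧ k m = b m}

theorem b_eq {m n : ℕ} (h1 : (2 * n + 1) ^ 2 ≤ 8 * m + 9) (h2 : 8 * m + 9 < (2 * n + 3) ^ 2) :
    b m = n := by
  have h1' : ((2 * n + 1 : ℝ)) ^ 2 ≤ 8 * m + 9 := by exact_mod_cast h1
  have h2' : (8 * m + 9 : ℝ) < (2 * n + 3) ^ 2 := by exact_mod_cast h2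
  have h3 : (2 * n + 1 : ℝ) ≤ Real.sqrt (8 * m + 9) := Real.le_sqrt_of_sq_le h1'
  have h4 : Real.sqrt (8 * m + 9) < 2 * n + 3 := by
    rw [Real.sqrt_lt' (by positivity)]
    exact h2'
  unfold b
  rw [Nat.floor_eq_iff (by
    have : (0 : ℝ) ≤ n := Nat.cast_nonneg n
    linarith)]
  constructor
  · linarith
  · linarith

/-- The moduli `m` in `E` with a realizing set none of whose elements is a unit. -/
def A : Set ℕ := {m | m ∈ E ∧ ∃ S : Finset (ZMod m), Realizing m S ∧ ∀ s ∈ S, ¬ IsUnit s}

theorem mem_A {m n : ℕ} (hm : 5 ≤ m) (h : search m (fun _ => true) (m - 1) 1 (n + 1) = false)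
    (h1 : (2 * n + 1) ^ 2 ≤ 8 * m + 9) (h2 : 8 * m + 9 < (2 * n + 3) ^ 2)
    (S : Finset (ZMod m)) (hS : ZeroSumFree m S) (hc : S.card = n)
    (hu : ∀ s ∈ S, ¬ Nat.Coprime s.val m) : m ∈ A := by
  have : NeZero m := ⟨by omega⟩
  have hk := k_eq (by omega) h hS hc
  refine ⟨⟨hm, by rw [hk, b_eq h1 h2]⟩, S, ⟨hS, by rw [hc, hk]⟩, ?_⟩
  intro s hs hus
  apply hu s hs
  rw [← ZMod.natCast_zmod_val s] at hus
  exact (ZMod.isUnit_iff_coprime _ _).mp hus

theorem mem12 : 12 ∈ A := by
  refine mem_A (n := 4) (by norm_num) (by decide +kernel) (by norm_num) (by norm_num)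
    {2, 3, 6, 8} ?_ (by decide +kernel) (by decide +kernel)
  unfold ZeroSumFree
  decide +kernel

theorem mem18 : 18 ∈ A := by
  refine mem_A (n := 5) (by norm_num) (by decide +kernel) (by norm_num) (by norm_num)
    {2, 3, 6, 8, 14} ?_ (by decide +kernel) (by decide +kernel)
  unfold ZeroSumFree
  decide +kernel

theorem mem24 : 24 ∈ A := by
  refine mem_A (n := 6) (by norm_num) (by decide +kernel) (by norm_num) (by norm_num)
    {2, 6, 8, 9, 20, 21} ?_ (by decide +kernel) (by decide +kernel)
  unfold ZeroSumFree
  decide +kernel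

theorem mem30 : 30 ∈ A := by
  refine mem_A (n := 7) (by norm_num) (by decide +kernel) (by norm_num) (by norm_num)
    {2, 5, 12, 15, 20, 22, 27} ?_ (by decide +kernel) (by decide +kernel)
  unfold ZeroSumFree
  decide +kernel

theorem unit_of_search {m n : ℕ} (hm : 2 ≤ m)
    (h : search m (fun a => !(Nat.beq (Nat.gcd a m) 1)) (m - 1) 1 (n + 1) = false)
    (S₀ : Finset (ZMod m)) (hS₀ : ZeroSumFree m S₀) (hc : S₀.card = n + 1)
    {S : Finset (ZMod m)} (hS : Realizing m S) : ∃ s ∈ S, IsUnit s := by
  by_contra hno
  push Not at hno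
  have h1 : n + 1 ≤ S.card := by
    rw [hS.2, ← hc]
    exact card_le_k hm hS₀
  have h2 : S.card ≤ n := by
    apply card_le_of_search hm h hS.1
    intro s hs
    have h3 : Nat.gcd s.val m ≠ 1 := fun h4 => hno s hs (unit_of_coprime hm h4)
    have h4 : Nat.beq (Nat.gcd s.val m) 1 = false := by
      rw [Bool.eq_false_iff]
      intro h5
      exact h3 (Nat.eq_of_beq_eq_true h5)
    simp [h4]
  omega

theorem not_mem_of_unit {m : ℕ} (h : ∀ S : Finset (ZMod m), Realizing m S → ∃ s ∈ S, IsUnit s) :
    m ∉ A := by
  rintro ⟨-, S, hS, hu⟩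
  obtain ⟨s, hs, hus⟩ := h S hS
  exact hu s hs hus

theorem not_mem_of_primePow {m : ℕ} (p a : ℕ) (hp : p.Prime) (ha : 0 < a) (h : p ^ a = m) :
    m ∉ A :=
  not_mem_of_unit fun _ hS => prime_power ((isPrimePow_nat_iff _).mpr ⟨p, a, hp, ha, h⟩) hS

theorem not_mem_of_search {m n : ℕ} (hm : 2 ≤ m)
    (h : search m (fun a => !(Nat.beq (Nat.gcd a m) 1)) (m - 1) 1 (n + 1) = false)
    (S₀ : Finset (ZMod m)) (hS₀ : ZeroSumFree m S₀) (hc : S₀.card = n + 1) : m ∉ A :=
  not_mem_of_unit fun _ hS => unit_of_search hm h S₀ hS₀ hc hS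

theorem not_mem6 : 6 ∉ A := by
  refine not_mem_of_search (n := 2) (by norm_num) (by decide +kernel)
    {1, 3, 4} ?_ (by decide +kernel)
  unfold ZeroSumFree
  decide +kernel

theorem not_mem10 : 10 ∉ A := by
  refine not_mem_of_search (n := 3) (by norm_num) (by decide +kernel)
    {1, 3, 4, 8} ?_ (by decide +kernel)
  unfold ZeroSumFree
  decide +kernel

theorem not_mem14 : 14 ∉ A := by
  refine not_mem_of_search (n := 4) (by norm_num) (by decide +kernel)
    {1, 3, 4, 5, 12} ?_ (by decide +kernel)
  unfold ZeroSumFree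
  decide +kernel

theorem not_mem20 : 20 ∉ A := by
  refine not_mem_of_search (n := 5) (by norm_num) (by decide +kernel)
    {1, 3, 4, 5, 6, 18} ?_ (by decide +kernel)
  unfold ZeroSumFree
  decide +kernel

theorem not_mem22 : 22 ∉ A := by
  refine not_mem_of_search (n := 5) (by norm_num) (by decide +kernel)
    {1, 3, 4, 5, 6, 20} ?_ (by decide +kernel)
  unfold ZeroSumFree
  decide +kernel

theorem not_mem26 : 26 ∉ A := by
  refine not_mem_of_search (n := 5) (by norm_num) (by decide +kernel)
    {1, 3, 4, 5, 6, 24} ?_ (by decide +kernel)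
  unfold ZeroSumFree
  decide +kernel

theorem not_mem28 : 28 ∉ A := by
  refine not_mem_of_search (n := 6) (by norm_num) (by decide +kernel)
    {1, 3, 4, 5, 6, 7, 26} ?_ (by decide +kernel)
  unfold ZeroSumFree
  decide +kernel

theorem not_mem34 : 34 ∉ A := by
  refine not_mem_of_search (n := 6) (by norm_num) (by decide +kernel)
    {1, 2, 3, 4, 5, 6, 7} ?_ (by decide +kernel)
  unfold ZeroSumFree
  decide +kernel

theorem not_mem36 : 36 ∉ A := by
  refine not_mem_of_search (n := 7) (by norm_num) (by decide +kernel)
    {1, 2, 3, 4, 18, 19, 20, 21} ?_ (by decide +kernel)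
  unfold ZeroSumFree
  decide +kernel

theorem not_mem38 : 38 ∉ A := by
  refine not_mem_of_search (n := 6) (by norm_num) (by decide +kernel)
    {1, 2, 3, 4, 5, 6, 7} ?_ (by decide +kernel)
  unfold ZeroSumFree
  decide +kernel

theorem not_mem40 : 40 ∉ A := by
  refine not_mem_of_search (n := 7) (by norm_num) (by decide +kernel)
    {1, 2, 3, 4, 5, 6, 7, 8} ?_ (by decide +kernel)
  unfold ZeroSumFree
  decide +kernel

theorem two_odd_primes {p q : ℕ} (hp : p.Prime) (hq : q.Prime) (hne : p ≠ q) (hp2 : p ≠ 2)
    (hq2 : q ≠ 2) (S : Finset (ZMod (p * q))) (hS : Realizing (p * q) S) : ∃ s ∈ S, IsUnit s := by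
  have hp3 : 3 ≤ p := by have := hp.two_le; omega
  have hq3 : 3 ≤ q := by have := hq.two_le; omega
  rcases lt_or_gt_of_ne hne with h | h
  · exact two_primes hp hq hp3 h hS
  · have key : ∀ n : ℕ, n = q * p → ∀ S : Finset (ZMod n), Realizing n S → ∃ s ∈ S, IsUnit s := by
      rintro n rfl S hS
      exact two_primes hq hp hq3 h hS
    exact key (p * q) (mul_comm p q) S hS

theorem small {m : ℕ} (hm : m ≤ 41) : m ∈ A ↔ m = 12 ∨ m = 18 ∨ m = 24 ∨ m = 30 := by
  constructor
  · intro h
    have h5 : 5 ≤ m := h.1.1
    by_contra hno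
    push Not at hno
    obtain ⟨n12, n18, n24, n30⟩ := hno
    have hnot : m ∉ A := by
      clear h
      interval_cases m
      · exact not_mem_of_primePow 5 1 (by norm_num) (by norm_num) (by norm_num)
      · exact not_mem6
      · exact not_mem_of_primePow 7 1 (by norm_num) (by norm_num) (by norm_num)
      · exact not_mem_of_primePow 2 3 (by norm_num) (by norm_num) (by norm_num)
      · exact not_mem_of_primePow 3 2 (by norm_num) (by norm_num) (by norm_num)
      · exact not_mem10
      · exact not_mem_of_primePow 11 1 (by norm_num) (by norm_num) (by norm_num)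
      · exact absurd rfl n12
      · exact not_mem_of_primePow 13 1 (by norm_num) (by norm_num) (by norm_num)
      · exact not_mem14
      · exact not_mem_of_unit (two_odd_primes (p := 3) (q := 5) (by norm_num) (by norm_num)
          (by norm_num) (by norm_num) (by norm_num))
      · exact not_mem_of_primePow 2 4 (by norm_num) (by norm_num) (by norm_num)
      · exact not_mem_of_primePow 17 1 (by norm_num) (by norm_num) (by norm_num)
      · exact absurd rfl n18
      · exact not_mem_of_primePow 19 1 (by norm_num) (by norm_num) (by norm_num)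
      · exact not_mem20
      · exact not_mem_of_unit (two_odd_primes (p := 3) (q := 7) (by norm_num) (by norm_num)
          (by norm_num) (by norm_num) (by norm_num))
      · exact not_mem22
      · exact not_mem_of_primePow 23 1 (by norm_num) (by norm_num) (by norm_num)
      · exact absurd rfl n24
      · exact not_mem_of_primePow 5 2 (by norm_num) (by norm_num) (by norm_num)
      · exact not_mem26
      · exact not_mem_of_primePow 3 3 (by norm_num) (by norm_num) (by norm_num)
      · exact not_mem28
      · exact not_mem_of_primePow 29 1 (by norm_num) (by norm_num) (by norm_num)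
      · exact absurd rfl n30
      · exact not_mem_of_primePow 31 1 (by norm_num) (by norm_num) (by norm_num)
      · exact not_mem_of_primePow 2 5 (by norm_num) (by norm_num) (by norm_num)
      · exact not_mem_of_unit (two_odd_primes (p := 3) (q := 11) (by norm_num) (by norm_num)
          (by norm_num) (by norm_num) (by norm_num))
      · exact not_mem34
      · exact not_mem_of_unit (two_odd_primes (p := 5) (q := 7) (by norm_num) (by norm_num)
          (by norm_num) (by norm_num) (by norm_num))
      · exact not_mem36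
      · exact not_mem_of_primePow 37 1 (by norm_num) (by norm_num) (by norm_num)
      · exact not_mem38
      · exact not_mem_of_unit (two_odd_primes (p := 3) (q := 13) (by norm_num) (by norm_num)
          (by norm_num) (by norm_num) (by norm_num))
      · exact not_mem40
      · exact not_mem_of_primePow 41 1 (by norm_num) (by norm_num) (by norm_num)
    exact hnot h
  · rintro (rfl | rfl | rfl | rfl)
    · exact mem12
    · exact mem18
    · exact mem24
    · exact mem30

/-- The moduli up to 41 which are in `A`, and the exclusion of all prime powers and of all products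
of two distinct odd primes; in general a realizing set has many elements outside each subgroup. -/
theorem result :
    (∀ m : ℕ, m ≤ 41 → (m ∈ A ↔ m = 12 ∨ m = 18 ∨ m = 24 ∨ m = 30)) ∧
    (∀ m : ℕ, IsPrimePow m → ∀ S : Finset (ZMod m), Realizing m S → ∃ s ∈ S, IsUnit s) ∧
    (∀ p q : ℕ, p.Prime → q.Prime → p ≠ q → p ≠ 2 → q ≠ 2 →
      ∀ S : Finset (ZMod (p * q)), Realizing (p * q) S → ∃ s ∈ S, IsUnit s) ∧
    (∀ m d : ℕ, 2 ≤ m → d ∣ m → ∀ S : Finset (ZMod m), Realizing m S →
      ∀ R : Finset (ZMod m), (∀ r ∈ R, ¬ d ∣ r.val) → ∑ r ∈ R, r.val % d < d →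
        R.card ≤ (S.filter (fun s => ¬ d ∣ s.val)).card) :=
  ⟨fun _ hm => small hm, fun _ hm _ hS => prime_power hm hS,
    fun _ _ hp hq hne hp2 hq2 S hS => two_odd_primes hp hq hne hp2 hq2 S hS,
    fun _ _ hm hd _ hS R hR hsum => exchange hm hd hS R hR hsum⟩

end Pool.Agent.Results.MP_a37b83_nt.UnitForced
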