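import Mathlib

/-!
MP_a37b83_nt, Q2: every `m` in `E` has a realizing set which contains the unit `1`; the same holds for
the other moduli for which the largest size is the one of the construction with two blocks.
-/

namespace Pool.Agent.Results.MP_a37b83_nt.UnitRealizing

/-- No nonempty subset of `S` has sum zero. -/
def ZeroSumFree (m : ℕ) (S : Finset (ZMod m)) : Prop :=
  ∀ T ⊆ S, T.Nonempty → ∑ x ∈ T, x ≠ 0

/-- `k m` is the largest size of a zero-sum-free set of residues modulo `m`. -/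
noncomputable def k (m : ℕ) : ℕ := sSup {n | ∃ S : Finset (ZMod m), ZeroSumFree m S ∧ S.card = n}

/-- `b m = ⌊(-1 + √(8 m + 9)) / 2⌋`. -/
noncomputable def b (m : ℕ) : ℕ := ⌊(-1 + Real.sqrt (8 * m + 9)) / 2⌋₊

/-- The realizing sets for `m`. -/
def Realizing (m : ℕ) (S : Finset (ZMod m)) : Prop := ZeroSumFree m S ∧ S.card = k m

/-- The set `E`. -/
def E : Set ℕ := {m | 5 ≤ m ∧ k m = b m}

theorem b_le (m : ℕ) : b m * (b m + 1) ≤ 2 * m + 2 := by
  have h0 : (0 : ℝ) ≤ (-1 + Real.sqrt (8 * m + 9)) / 2 := by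
    have : (1 : ℝ) ≤ Real.sqrt (8 * m + 9) := by
      apply Real.le_sqrt_of_sq_le
      have : (0 : ℝ) ≤ m := Nat.cast_nonneg m
      linarith
    linarith
  have h1 : (b m : ℝ) ≤ (-1 + Real.sqrt (8 * m + 9)) / 2 := Nat.floor_le h0
  have h2 : 2 * (b m : ℝ) + 1 ≤ Real.sqrt (8 * m + 9) := by linarith
  have h3 : (2 * (b m : ℝ) + 1) ^ 2 ≤ 8 * m + 9 := by
    have h4 : (0 : ℝ) ≤ 2 * (b m : ℝ) + 1 := by positivity
    have h5 : (0 : ℝ) ≤ 8 * m + 9 := by positivity
    have h6 := pow_le_pow_left₀ h4 h2 2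
    rwa [Real.sq_sqrt h5] at h6
  have h6 : ((b m * (b m + 1) : ℕ) : ℝ) ≤ ((2 * m + 2 : ℕ) : ℝ) := by
    push_cast
    nlinarith
  exact_mod_cast h6

theorem three_le_b {m : ℕ} (hm : 5 ≤ m) : 3 ≤ b m := by
  have h7 : (7 : ℝ) ≤ Real.sqrt (8 * m + 9) := by
    apply Real.le_sqrt_of_sq_le
    have : (5 : ℝ) ≤ m := by exact_mod_cast hm
    linarith
  apply Nat.le_floor
  push_cast
  linarith

/-- Sets of residues given by integers. -/
theorem zsf_image {m : ℕ} (I : Finset ℕ) (f : ℕ → ℤ)
    (hinj : ∀ i ∈ I, ∀ j ∈ I, (m : ℤ) ∣ f i - f j → i = j)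
    (h : ∀ J ⊆ I, J.Nonempty → ¬ (m : ℤ) ∣ ∑ i ∈ J, f i) :
    ZeroSumFree m (I.image fun i => (f i : ZMod m)) ∧
      (I.image fun i => (f i : ZMod m)).card = I.card := by
  have hI : Set.InjOn (fun i => (f i : ZMod m)) (I : Set ℕ) := by
    intro i hi j hj hij
    apply hinj i hi j hj
    have : ((f i - f j : ℤ) : ZMod m) = 0 := by
      push_cast
      exact sub_eq_zero.mpr hij
    exact (ZMod.intCast_zmod_eq_zero_iff_dvd _ _).mp this
  refine ⟨?_, Finset.card_image_of_injOn hI⟩
  intro T hT hne h0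
  obtain ⟨J, hJI, hJT⟩ := Finset.subset_image_iff.mp hT
  have hJI' : J ⊆ I := by exact_mod_cast hJI
  have hJne : J.Nonempty := by
    rw [← hJT] at hne
    exact Finset.image_nonempty.mp hne
  apply h J hJI' hJne
  rw [← hJT, Finset.sum_image (fun i hi j hj hij => hI (hJI' hi) (hJI' hj) hij)] at h0
  have : ((∑ i ∈ J, f i : ℤ) : ZMod m) = 0 := by
    push_cast
    exact h0
  exact (ZMod.intCast_zmod_eq_zero_iff_dvd _ _).mp this

theorem eq_zero_of_dvd {m : ℕ} {x : ℤ} (h : (m : ℤ) ∣ x) (h1 : -(m : ℤ) < x) (h2 : x < m) : x = 0 := by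
  obtain ⟨c, rfl⟩ := h
  have hm : (0 : ℤ) < m := by
    by_contra hc
    push Not at hc
    have : (m : ℤ) = 0 := le_antisymm hc (by positivity)
    simp [this] at h1
  have hc1 : -1 < c := by
    by_contra hc
    push Not at hc
    nlinarith
  have hc2 : c < 1 := by
    by_contra hc
    push Not at hc
    nlinarith
  have : c = 0 := by omega
  simp [this]

/-- The function of the set `1, -2, 3, 4, …, n`. -/
def f (i : ℕ) : ℤ := if i = 2 then -2 else i

theorem sum_f (J : Finset ℕ) :
    ∑ i ∈ J, f i = (∑ i ∈ J.erase 2, (i : ℤ)) - if 2 ∈ J then 2 else 0 := by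
  by_cases h : 2 ∈ J
  · rw [← Finset.sum_erase_add J f h, if_pos h]
    have : f 2 = -2 := by simp [f]
    rw [this]
    have h2 : ∑ i ∈ J.erase 2, f i = ∑ i ∈ J.erase 2, (i : ℤ) := by
      apply Finset.sum_congr rfl
      intro i hi
      simp [f, Finset.ne_of_mem_erase hi]
    rw [h2]
    ring
  · rw [if_neg h, Finset.erase_eq_of_notMem h, sub_zero]
    apply Finset.sum_congr rfl
    intro i hi
    have : i ≠ 2 := fun h2 => h (h2 ▸ hi)
    simp [f, this]

theorem sum_Icc (n : ℕ) : 2 * ∑ i ∈ Finset.Icc 1 n, (i : ℤ) = n * (n + 1) := by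
  induction n with
  | zero => simp
  | succ n ih =>
    rw [Finset.sum_Icc_succ_top (by omega), mul_add, ih]
    push_cast
    ring

theorem firstSet {m n : ℕ} (hm : 6 ≤ m) (hn : 3 ≤ n) (h : n * (n + 1) ≤ 2 * m + 2) :
    ZeroSumFree m ((Finset.Icc 1 n).image fun i => (f i : ZMod m)) ∧
      ((Finset.Icc 1 n).image fun i => (f i : ZMod m)).card = n := by
  have hnm : n + 2 < m := by
    by_contra hc
    push Not at hc
    have h1 : n * (n + 1) ≤ 2 * (n + 2) + 2 := le_trans h (by omega)
    have : n ≤ 3 := by nlinarith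
    omega
  have key := zsf_image (m := m) (Finset.Icc 1 n) f ?_ ?_
  · refine ⟨key.1, ?_⟩
    rw [key.2, Nat.card_Icc]
    omega
  · intro i hi j hj hij
    rw [Finset.mem_Icc] at hi hj
    have h1 : f i - f j = 0 := by
      apply eq_zero_of_dvd hij <;> unfold f <;> split_ifs <;> omega
    unfold f at h1
    split_ifs at h1 <;> omega
  · intro J hJ hne hdvd
    rw [sum_f] at hdvd
    have hJ' : J.erase 2 ⊆ (Finset.Icc 1 n).erase 2 := Finset.erase_subset_erase 2 hJ
    have hlow : 0 ≤ ∑ i ∈ J.erase 2, (i : ℤ) := Finset.sum_nonneg (fun i _ => by positivity)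
    have hup : ∑ i ∈ J.erase 2, (i : ℤ) ≤ ∑ i ∈ (Finset.Icc 1 n).erase 2, (i : ℤ) :=
      Finset.sum_le_sum_of_subset_of_nonneg hJ' (fun i _ _ => by positivity)
    have htot : (∑ i ∈ (Finset.Icc 1 n).erase 2, (i : ℤ)) + 2 = ∑ i ∈ Finset.Icc 1 n, (i : ℤ) := by
      have := Finset.sum_erase_add (Finset.Icc 1 n) (fun i : ℕ => (i : ℤ)) (a := 2)
        (by rw [Finset.mem_Icc]; omega)
      simpa using this
    have hs := sum_Icc n
    have h' : (n : ℤ) * (n + 1) ≤ 2 * m + 2 := by exact_mod_cast h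
    have hmain : ∑ i ∈ J.erase 2, (i : ℤ) ≤ m - 1 := by linarith
    by_cases h2 : 2 ∈ J
    · rw [if_pos h2] at hdvd
      have h0 := eq_zero_of_dvd hdvd (by omega) (by omega)
      have hsum : ∑ i ∈ J.erase 2, (i : ℤ) = 2 := by omega
      by_cases hbig : ∃ i ∈ J.erase 2, 3 ≤ i
      · obtain ⟨i, hi, hi3⟩ := hbig
        have := Finset.single_le_sum (f := fun i : ℕ => (i : ℤ)) (fun i _ => by positivity) hi
        have h3 : (3 : ℤ) ≤ (i : ℤ) := by exact_mod_cast hi3
        omega
      · push Not at hbig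
        have hsub : J.erase 2 ⊆ {1} := by
          intro i hi
          have h1 := hbig i hi
          have h3 := hJ (Finset.mem_of_mem_erase hi)
          have h4 := Finset.ne_of_mem_erase hi
          rw [Finset.mem_Icc] at h3
          rw [Finset.mem_singleton]
          omega
        have := Finset.sum_le_sum_of_subset_of_nonneg (f := fun i : ℕ => (i : ℤ)) hsub
          (fun i _ _ => by positivity)
        simp at this
        omega
    · rw [if_neg h2, sub_zero] at hdvd
      have h0 := eq_zero_of_dvd hdvd (by omega) (by omega)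
      rw [Finset.erase_eq_of_notMem h2] at h0
      obtain ⟨i, hi⟩ := hne
      have := Finset.single_le_sum (f := fun i : ℕ => (i : ℤ)) (fun i _ => by positivity) hi
      have h3 := hJ hi
      rw [Finset.mem_Icc] at h3
      omega

/-- The function of the set `1, …, a, h, h + 1, …, h + l`. -/
def g (a h : ℕ) (i : ℕ) : ℤ := if i < a then (i : ℤ) + 1 else h + ((i : ℤ) - a)

/-- The small part of `g`. -/
def g' (a : ℕ) (i : ℕ) : ℤ := if i < a then (i : ℤ) + 1 else (i : ℤ) - a

theorem g'_nonneg (a i : ℕ) : 0 ≤ g' a i := by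
  unfold g'
  split_ifs <;> omega

theorem sum_g (a h : ℕ) (J : Finset ℕ) :
    ∑ i ∈ J, g a h i = ∑ i ∈ J, g' a i + h * ((J.filter fun i => a ≤ i).card : ℤ) := by
  have h1 : ∀ i ∈ J, g a h i = g' a i + h * (if a ≤ i then (1 : ℤ) else 0) := by
    intro i _
    unfold g g'
    by_cases hi : i < a
    · rw [if_pos hi, if_pos hi, if_neg (by omega)]
      ring
    · rw [if_neg hi, if_neg hi, if_pos (by omega)]
      ring
  rw [Finset.sum_congr rfl h1, Finset.sum_add_distrib, ← Finset.mul_sum, Finset.card_filter]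
  push_cast
  rfl

theorem sum_range_id' (n : ℕ) : 2 * ∑ i ∈ Finset.range n, (i : ℤ) = n * (n - 1) := by
  induction n with
  | zero => simp
  | succ n ih =>
    rw [Finset.sum_range_succ, mul_add, ih]
    push_cast
    ring

theorem sum_g'_le (a l : ℕ) (J : Finset ℕ) (hJ : J ⊆ Finset.range (a + (l + 1))) :
    2 * ∑ i ∈ J, g' a i ≤ a * (a + 1) + l * (l + 1) := by
  have h0 := Finset.sum_le_sum_of_subset_of_nonneg hJ (fun i _ _ => g'_nonneg a i)
  rw [Finset.sum_range_add] at h0
  have h2 : ∑ i ∈ Finset.range a, g' a i = ∑ i ∈ Finset.range a, ((i : ℤ) + 1) := by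
    apply Finset.sum_congr rfl
    intro i hi
    rw [Finset.mem_range] at hi
    unfold g'
    rw [if_pos hi]
  have h3 : ∑ i ∈ Finset.range (l + 1), g' a (a + i) = ∑ i ∈ Finset.range (l + 1), (i : ℤ) := by
    apply Finset.sum_congr rfl
    intro i hi
    unfold g'
    rw [if_neg (by omega)]
    push_cast
    ring
  rw [h2, h3, Finset.sum_add_distrib] at h0
  have h4 := sum_range_id' a
  have h5 := sum_range_id' (l + 1)
  simp only [Finset.sum_const, Finset.card_range, nsmul_eq_mul, mul_one] at h0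
  push_cast at h5
  nlinarith

theorem secondSet {a l h : ℕ} (hl : a * (a + 1) + l * (l + 1) < 2 * h) :
    ZeroSumFree (2 * h) ((Finset.range (a + (l + 1))).image fun i => (g a h i : ZMod (2 * h))) ∧
      ((Finset.range (a + (l + 1))).image fun i => (g a h i : ZMod (2 * h))).card = a + l + 1 := by
  have hah : a < h := by
    have h1 : a ≤ a * a := Nat.le_mul_self a
    nlinarith
  have hlh : l < h := by
    have h1 : l ≤ l * l := Nat.le_mul_self l
    nlinarith
  have key := zsf_image (m := 2 * h) (Finset.range (a + (l + 1))) (g a h) ?_ ?_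
  · refine ⟨key.1, ?_⟩
    rw [key.2, Finset.card_range]
    ring
  · intro i hi j hj hij
    rw [Finset.mem_range] at hi hj
    have h1 : g a h i - g a h j = 0 := by
      apply eq_zero_of_dvd hij <;> unfold g <;> split_ifs <;> push_cast <;> omega
    unfold g at h1
    split_ifs at h1 <;> omega
  · intro J hJ hne hdvd
    rw [sum_g] at hdvd
    have hs0 : 0 ≤ ∑ i ∈ J, g' a i := Finset.sum_nonneg (fun i _ => g'_nonneg a i)
    have hs1 : ∑ i ∈ J, g' a i < h := by
      have h6 := sum_g'_le a l J hJ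
      have h7 : ((a * (a + 1) + l * (l + 1) : ℕ) : ℤ) < ((2 * h : ℕ) : ℤ) := by exact_mod_cast hl
      push_cast at h7
      linarith
    set s := ∑ i ∈ J, g' a i with hs
    set c := (J.filter fun i => a ≤ i).card with hc
    rcases Nat.even_or_odd' c with ⟨q, hq | hq⟩
    · have h1 : ((2 * h : ℕ) : ℤ) ∣ s := by
        have h2 : ((2 * h : ℕ) : ℤ) ∣ h * (c : ℤ) := by
          rw [hq]
          push_cast
          exact ⟨q, by ring⟩
        exact (Int.dvd_add_left h2).mp hdvd
      have h0 : s = 0 := eq_zero_of_dvd h1 (by push_cast; omega) (by push_cast; omega)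
      have hall : ∀ i ∈ J, i = a := by
        intro i hi
        have h3 := (Finset.sum_eq_zero_iff_of_nonneg (fun i _ => g'_nonneg a i)).mp (hs ▸ h0) i hi
        unfold g' at h3
        split_ifs at h3 <;> omega
      have hcard : c ≤ 1 := by
        rw [hc]
        apply Finset.card_le_one.mpr
        intro x hx y hy
        rw [hall x (Finset.mem_of_mem_filter x hx), hall y (Finset.mem_of_mem_filter y hy)]
      have hc0 : c = 0 := by omega
      obtain ⟨i, hi⟩ := hne
      have h4 : i ∈ J.filter fun i => a ≤ i := by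
        rw [Finset.mem_filter]
        exact ⟨hi, (hall i hi).ge⟩
      rw [hc, Finset.card_eq_zero] at hc0
      rw [hc0] at h4
      exact absurd h4 (Finset.notMem_empty i)
    · have h1 : ((2 * h : ℕ) : ℤ) ∣ s + h := by
        have h2 : ((2 * h : ℕ) : ℤ) ∣ h * (2 * q : ℤ) := by
          push_cast
          exact ⟨q, by ring⟩
        have h3 : s + h * (c : ℤ) = (s + h) + h * (2 * q : ℤ) := by
          rw [hq]
          push_cast
          ring
        rw [h3] at hdvd
        exact (Int.dvd_add_left h2).mp hdvd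
      have h0 : s + h = 0 := eq_zero_of_dvd h1 (by push_cast; omega) (by push_cast; omega)
      omega

theorem k_five : k 5 ≠ b 5 := by
  have h3 := three_le_b (le_refl 5)
  have hne : ({n | ∃ S : Finset (ZMod 5), ZeroSumFree 5 S ∧ S.card = n} : Set ℕ).Nonempty := by
    refine ⟨0, (∅ : Finset (ZMod 5)), ?_, rfl⟩
    intro T hT hne
    exact absurd (Finset.subset_empty.mp hT) hne.ne_empty
  have h2 : k 5 ≤ 2 := by
    apply csSup_le hne
    rintro n ⟨S, hS, rfl⟩
    by_contra hc
    push Not at hc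
    revert hc hS
    unfold ZeroSumFree
    revert S
    decide
  omega

/-- Every `m` in `E`, and every even `m` with `a (a + 1) + l (l + 1) < m` and `k m = a + l + 1` for some
`a ≥ 1` and `l ≥ 0`, has a realizing set containing a unit. -/
theorem result :
    (∀ m ∈ E, ∃ S : Finset (ZMod m), Realizing m S ∧ ∃ u ∈ S, IsUnit u) ∧
    (∀ m a l : ℕ, Even m → 1 ≤ a → a * (a + 1) + l * (l + 1) < m → k m = a + l + 1 →
      ∃ S : Finset (ZMod m), Realizing m S ∧ ∃ u ∈ S, IsUnit u) := by
  constructor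
  · rintro m ⟨hm, hk⟩
    have hm6 : 6 ≤ m := by
      rcases Nat.lt_or_ge m 6 with h | h
      · have : m = 5 := by omega
        subst this
        exact absurd hk k_five
      · exact h
    have h3 := three_le_b hm
    have key := firstSet hm6 h3 (b_le m)
    refine ⟨_, ⟨key.1, key.2.trans hk.symm⟩, 1, ?_, isUnit_one⟩
    rw [Finset.mem_image]
    refine ⟨1, ?_, by simp [f]⟩
    rw [Finset.mem_Icc]
    omega
  · rintro m a l ⟨h, hh⟩ ha hm hk
    have hm2 : m = 2 * h := by omega
    subst hm2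
    have key := secondSet (a := a) (l := l) (h := h) hm
    refine ⟨_, ⟨key.1, key.2.trans hk.symm⟩, 1, ?_, isUnit_one⟩
    rw [Finset.mem_image]
    refine ⟨0, ?_, ?_⟩
    · rw [Finset.mem_range]
      omega
    · unfold g
      rw [if_pos (by omega)]
      simp

end Pool.Agent.Results.MP_a37b83_nt.UnitRealizing
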